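import Pool.Agent.H.MP_c57dc8_lc.C

set_option autoImplicit false

namespace Pool.Agent.Results.MP_c57dc8_lc.Yes

open Pool.Agent.H.MP_d04dff_lc Pool.Agent.H.MP_c57dc8_lc Pool.Agent.Lib.helper21 Filter

def Negl (P : Set (ℕ → Bool)) : Prop :=
  Fn.mu {Y | ∃ X ∈ P, TuringReducible (orc X) (orc Y)} = 0

theorem result (U : List Bool →. List Bool) (hU : OptP U) :
    (∃ f : ℕ → ℕ, Ord f ∧ Tendsto (fun n : ℕ => (f n : ℝ) / n) atTop (nhds 0) ∧ ∀ c : ℕ,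
      (∀ M, Semi M → Deep M (SC U (fun n => f n) c)) ∧ Negl (SC U (fun n => f n) c)) ∧
    ∃ c : ℕ, ¬ Negl (SC U (fun n => n / Real.logb 2 n) c) ∧
      ∀ M, (∀ N, Semi N → ∃ d : ℝ, ∀ σ, N σ ≤ |d| * M σ) →
        ¬ Deep M (SC U (fun n => n / Real.logb 2 n) c) :=
  ⟨⟨ff, ff_ord, ff_lim, fun c => ⟨fun _ hM => deep hU hM c,
    negl fun M hM => ⟨M, deep hU hM c, 1, by simp⟩⟩⟩,
    256, inst hU, fun M hM h => inst hU (negl fun N hN => ⟨M, h, hM N hN⟩)⟩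

end Pool.Agent.Results.MP_c57dc8_lc.Yes
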